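import Pool.Agent.R418.PT.A
import Pool.Agent.T2H58.DQ.Gen

/-!
# Joint Lang-Trotter counts of the quadratic twists of several integer sequences

The twists are by the values `g_i(D_j)` of polynomials along a sequence `D_j` of integers which is equidistributed modulo
small `q`.
-/

set_option autoImplicit false

namespace Pool.Agent.T2H67.LT

open Finset Polynomial
open Pool.Agent.T2H58.DQ

/-- `p` is an odd prime with `p % q = c` at which the twist of `a_i` by `D_i` has the value `r_i`, for all `i` -/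
def Hit {m : ℕ} (a : Fin m → ℕ → ℤ) (D r : Fin m → ℤ) (q c p : ℕ) : Prop :=
  p.Prime ∧ p ≠ 2 ∧ p % q = c ∧ ∀ i, jacobiSym (D i) p * a i p = r i

/-- `p` is an odd prime with `p % q = c` and `a_i(p) = ± r_i` for all `i` -/
def Pm {m : ℕ} (a : Fin m → ℕ → ℤ) (r : Fin m → ℤ) (q c p : ℕ) : Prop :=
  p.Prime ∧ p ≠ 2 ∧ p % q = c ∧ ∀ i, a i p = r i ∨ a i p = - r i

open Classical in
noncomputable def count {m : ℕ} (a : Fin m → ℕ → ℤ) (D r : Fin m → ℤ) (q c x : ℕ) : ℕ :=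
  ((range (x + 1)).filter (fun p => Hit a D r q c p)).card

open Classical in
noncomputable def base {m : ℕ} (a : Fin m → ℕ → ℤ) (r : Fin m → ℤ) (q c x : ℕ) : ℕ :=
  ((range (x + 1)).filter (fun p => Pm a r q c p)).card

open Classical in
noncomputable def ram (F : ℤ[X]) (x : ℕ) : ℕ :=
  ((range (x + 1)).filter (fun p : ℕ => p.Prime ∧
    ((p : ℤ) ∣ F.leadingCoeff ∨ (p : ℤ) ∣ resultant F F.derivative))).card

open Classical in
/-- the signs -/
noncomputable def sg {m : ℕ} (a : Fin m → ℕ → ℤ) (r : Fin m → ℤ) (p : ℕ) (i : Fin m) : ℤ :=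
  if a i p = r i then 1 else -1

theorem sg_one {m : ℕ} (a : Fin m → ℕ → ℤ) (r : Fin m → ℤ) (p : ℕ) (i : Fin m) : sg a r p i = 1 ∨ sg a r p i = -1 := by
  unfold sg
  split_ifs
  · left; rfl
  · right; rfl

theorem hit_iff {m : ℕ} (a : Fin m → ℕ → ℤ) (D r : Fin m → ℤ) (hr : ∀ i, r i ≠ 0) (q c p : ℕ) :
    Hit a D r q c p ↔ Pm a r q c p ∧ ∀ i, jacobiSym (D i) p = sg a r p i := by
  unfold Hit Pm
  constructor
  · rintro ⟨h1, h2, h3, h4⟩
    have key : ∀ i, (a i p = r i ∨ a i p = - r i) ∧ jacobiSym (D i) p = sg a r p i := by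
      intro i
      have h5 := h4 i
      have h6 := hr i
      unfold sg
      rcases jacobiSym.trichotomy (D i) p with h | h | h
      · rw [h, zero_mul] at h5
        exact absurd h5.symm h6
      · rw [h, one_mul] at h5
        rw [if_pos h5, h]
        exact ⟨Or.inl h5, rfl⟩
      · rw [h] at h5
        have h7 : a i p = - r i := by linarith
        have h8 : ¬ a i p = r i := by
          rw [h7]
          intro h9
          omega
        rw [if_neg h8, h]
        exact ⟨Or.inr h7, rfl⟩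
    exact ⟨⟨h1, h2, h3, fun i => (key i).1⟩, fun i => (key i).2⟩
  · rintro ⟨⟨h1, h2, h3, h4⟩, h5⟩
    refine ⟨h1, h2, h3, fun i => ?_⟩
    rw [h5 i]
    unfold sg
    split_ifs with h
    · rw [one_mul, h]
    · rcases h4 i with h6 | h6
      · exact absurd h6 h
      · rw [h6]; ring

open Classical in
theorem mean_twist {m : ℕ} (hm : 1 ≤ m) (a : Fin m → ℕ → ℤ) (f : Fin m → ℤ[X])
    (hd : ∀ i, 1 ≤ (f i).natDegree) (r : Fin m → ℤ) (hr : ∀ i, r i ≠ 0) (q c p : ℕ) :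
    |Pool.Agent.R418.GE.mean p (fun j : ℕ => if Hit a (fun i => (f i).eval (j : ℤ)) r q c p
        then (1 : ℝ) else 0) - (if Pm a r q c p then 1 / 2 ^ m else 0)| ≤
      (if Pm a r q c p then 2 * ((∏ i, f i).natDegree : ℝ) * (1 / √p) else 0) +
      (if p.Prime ∧ ((p : ℤ) ∣ (∏ i, f i).leadingCoeff ∨
        (p : ℤ) ∣ resultant (∏ i, f i) (derivative (∏ i, f i))) then 1 else 0) := by
  classical
  obtain ⟨g, hg⟩ : ∃ g : ℕ → ℝ, g = fun j : ℕ => if Hit a (fun i => (f i).eval (j : ℤ)) r q c p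
        then (1 : ℝ) else 0 := ⟨_, rfl⟩
  have hg01 : ∀ j, 0 ≤ g j ∧ g j ≤ 1 := by
    intro j
    rw [hg]
    simp only
    split_ifs <;> norm_num
  rw [← hg]
  by_cases hS : Pm a r q c p
  · rw [if_pos hS, if_pos hS]
    have hp := hS.1
    have hp2 := hS.2.1
    have hp0 : (0 : ℝ) < p := by exact_mod_cast hp.pos
    by_cases hb : (p : ℤ) ∣ Pool.Agent.R418.UP.bad (∏ i, f i)
    · have hb' : (p : ℤ) ∣ (∏ i, f i).leadingCoeff ∨
        (p : ℤ) ∣ resultant (∏ i, f i) (derivative (∏ i, f i)) := by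
        unfold Pool.Agent.R418.UP.bad at hb
        exact (Nat.prime_iff_prime_int.1 hp).dvd_or_dvd hb
      rw [if_pos ⟨hp, hb'⟩]
      have h1 : 0 ≤ Pool.Agent.R418.GE.mean p g ∧ Pool.Agent.R418.GE.mean p g ≤ 1 := by
        have h1 : 0 ≤ ∑ n ∈ range p, g n := sum_nonneg fun n _ => (hg01 n).1
        have h2 : ∑ n ∈ range p, g n ≤ p := by
          refine (sum_le_sum (g := fun _ => (1 : ℝ)) fun n _ => (hg01 n).2).trans ?_
          simp
        exact ⟨div_nonneg h1 hp0.le, div_le_one_of_le₀ h2 hp0.le⟩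
      have h2 : (0 : ℝ) ≤ 1 / 2 ^ m ∧ (1 : ℝ) / 2 ^ m ≤ 1 := by
        refine ⟨by positivity, ?_⟩
        rw [div_le_one (by positivity)]
        exact one_le_pow₀ (by norm_num)
      have h3 : (0 : ℝ) ≤ 2 * ((∏ i, f i).natDegree : ℝ) * (1 / √p) := by positivity
      rw [abs_le]
      constructor <;> linarith [h1.1, h1.2, h2.1, h2.2]
    · have h1 := Pool.Agent.R418.PT.mean_signs hm f hd p hp hp2 hb (sg a r p) (sg_one a r p)
      have hgs : ∀ n : ℕ, g n = if ∀ i, jacobiSym ((f i).eval (n : ℤ)) p = sg a r p i then 1 else 0 := by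
        intro n
        rw [hg]
        simp only
        refine if_congr ?_ rfl rfl
        rw [hit_iff a _ r hr]
        exact ⟨fun h => h.2, fun h => ⟨hS, h⟩⟩
      rw [← sum_congr rfl fun n _ => hgs n] at h1
      have h4 : 0 ≤ (if p.Prime ∧ ((p : ℤ) ∣ (∏ i, f i).leadingCoeff ∨
        (p : ℤ) ∣ resultant (∏ i, f i) (derivative (∏ i, f i))) then (1 : ℝ) else 0) := by
        split_ifs <;> norm_num
      refine le_trans ?_ (le_add_of_nonneg_right h4)
      have h5 : Pool.Agent.R418.GE.mean p g - 1 / 2 ^ m =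
          (∑ n ∈ range p, g n - (p : ℝ) / 2 ^ m) / p := by
        rw [Pool.Agent.R418.GE.mean]
        field_simp
      rw [h5, abs_div, abs_of_pos hp0, div_le_iff₀ hp0]
      refine h1.trans (le_of_eq ?_)
      have h6 : √(p : ℝ) * √(p : ℝ) = p := Real.mul_self_sqrt hp0.le
      have h7 : √(p : ℝ) ≠ 0 := (Real.sqrt_pos.mpr hp0).ne'
      calc 2 * ((∏ i, f i).natDegree : ℝ) * √p = 2 * ((∏ i, f i).natDegree : ℝ) * (1 / √p) *
            (√(p : ℝ) * √(p : ℝ)) := by field_simp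
        _ = _ := by rw [h6]
  · rw [if_neg hS, if_neg hS, zero_add, sub_zero]
    have h0 : ∀ n, g n = 0 := by
      intro n
      rw [hg]
      simp only
      rw [if_neg]
      intro h
      exact hS ((hit_iff a _ r hr q c p).1 h).1
    have h1 : Pool.Agent.R418.GE.mean p g = 0 := by
      rw [Pool.Agent.R418.GE.mean, sum_congr rfl fun n _ => h0 n]
      simp
    rw [h1, abs_zero]
    split_ifs <;> norm_num

theorem jac_congr {p : ℕ} {a b : ℤ} (h : (p : ℤ) ∣ a - b) : jacobiSym a p = jacobiSym b p := by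
  rw [jacobiSym.mod_left a, jacobiSym.mod_left b]
  congr 1
  exact (Int.emod_emod_of_dvd _ (dvd_refl _)).symm.trans (by
    rw [Int.emod_emod_of_dvd _ (dvd_refl _)]
    exact (Int.emod_emod_of_dvd a (dvd_refl _)).symm.trans (by
      rw [Int.emod_emod_of_dvd a (dvd_refl _)]
      exact Int.emod_eq_emod_iff_emod_sub_eq_zero.2 (Int.emod_eq_zero_of_dvd h)))

theorem hit_congr {m : ℕ} (a : Fin m → ℕ → ℤ) {D D' : Fin m → ℤ} (r : Fin m → ℤ) (q c p : ℕ)
    (h : ∀ i, (p : ℤ) ∣ D i - D' i) : Hit a D r q c p ↔ Hit a D' r q c p := by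
  unfold Hit
  refine and_congr_right fun _ => and_congr_right fun _ => and_congr_right fun _ => forall_congr' fun i => ?_
  rw [jac_congr (h i)]

theorem law (m d κ : ℕ) (hm : 1 ≤ m) (δ : ℝ) (hδ : 0 < δ) (θ C₁ : ℝ) (hθ : 0 < θ) (hC₁ : 1 ≤ C₁) : ∃ W X₀ : ℕ, 1 ≤ W ∧
    ∀ (a : Fin m → ℕ → ℤ) (f : Fin m → ℤ[X]), (∀ i, 1 ≤ (f i).natDegree ∧ (f i).natDegree ≤ d) →
      ∀ (X N : ℕ) (D : ℕ → ℤ), X₀ ≤ X → Equi D N ((N : ℝ) ^ θ) (C₁ * (N : ℝ) ^ (1 - θ)) →
        (({j : ℕ | 1 ≤ j ∧ j ≤ N ∧ ∃ x : ℕ, X ≤ x ∧ x ^ W ≤ N ∧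
          ∃ (r : Fin m → ℤ) (q c : ℕ), (∀ i, r i ≠ 0) ∧ 1 ≤ q ∧ q ≤ x ∧ c < q ∧
            √(max 1 (base a r q c x : ℝ)) * (x : ℝ) ^ δ + ram (∏ i, f i) x <
              |(count a (fun i => (f i).eval (D j)) r q c x : ℝ) -
                (base a r q c x : ℝ) / 2 ^ m|}).ncard : ℝ) * (X : ℝ) ^ κ ≤ N := by
  classical
  obtain ⟨W, X₀, hW, hX₀, hgen⟩ := general_seq (δ / 2) κ (2 * m + 2) (by positivity) θ C₁ hθ hC₁
  obtain ⟨X₁, hX₁⟩ : ∃ X₁ : ℕ, ∀ x : ℕ, X₁ ≤ x → 1 + 4 * (m * d : ℝ) ≤ (x : ℝ) ^ (δ / 2) := by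
    have h1 : Filter.Tendsto (fun x : ℕ => (x : ℝ) ^ (δ / 2)) Filter.atTop Filter.atTop :=
      (tendsto_rpow_atTop (show 0 < δ / 2 by positivity)).comp tendsto_natCast_atTop_atTop
    have h2 := h1.eventually (Filter.eventually_ge_atTop (1 + 4 * (m * d : ℝ)))
    obtain ⟨X₁, h3⟩ := Filter.eventually_atTop.mp h2
    exact ⟨X₁, h3⟩
  refine ⟨W, max X₀ (max X₁ 5), hW, ?_⟩
  intro a f hf X N D hX hEq
  have hXa : X₀ ≤ X := (le_max_left _ _).trans hX
  have hXb : X₁ ≤ X := (le_max_left _ _).trans ((le_max_right _ _).trans hX)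
  have hXc : 5 ≤ X := (le_max_right _ _).trans ((le_max_right _ _).trans hX)
  obtain ⟨V, hV⟩ : ∃ V : ℕ → Fin m → Finset ℤ, V = fun x i =>
    (range (x + 1)).image (fun p => a i p) ∪ (range (x + 1)).image (fun p => - a i p) := ⟨_, rfl⟩
  obtain ⟨R, hR⟩ : ∃ R : ℕ → Finset ((Fin m → ℤ) × ℕ × ℕ), R = fun x : ℕ => if x < 5 then ∅ else
    ((Fintype.piFinset fun i : Fin m => V x i) ×ˢ (Icc 1 x ×ˢ range x)).filter (fun s => ∀ i, s.1 i ≠ 0) := ⟨_, rfl⟩
  obtain ⟨g, hg⟩ : ∃ g : ℕ → ((Fin m → ℤ) × ℕ × ℕ) → ℕ → ℕ → ℝ, g =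
    fun (_ : ℕ) (s : (Fin m → ℤ) × ℕ × ℕ) (p j : ℕ) =>
      if Hit a (fun i => (f i).eval (j : ℤ)) s.1 s.2.1 s.2.2 p then (1 : ℝ) else 0 := ⟨_, rfl⟩
  have hVc : ∀ x i, (V x i).card ≤ 2 * (x + 1) := by
    intro x i
    rw [hV]
    refine (card_union_le _ _).trans ?_
    have h1 : ((range (x + 1)).image (fun p => a i p)).card ≤ x + 1 := card_image_le.trans (by rw [card_range])
    have h2 : ((range (x + 1)).image (fun p => - a i p)).card ≤ x + 1 := card_image_le.trans (by rw [card_range])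
    omega
  have hRc : ∀ x, (R x).card ≤ x ^ (2 * m + 2) := by
    intro x
    rw [hR]
    simp only
    split_ifs with h
    · simp
    · push Not at h
      refine (card_filter_le _ _).trans ?_
      rw [card_product, card_product, Fintype.card_piFinset, Nat.card_Icc, card_range]
      have h2 : ∀ i : Fin m, (V x i).card ≤ x ^ 2 := by
        intro i
        have := hVc x i
        nlinarith
      have h3 : ∏ i, (V x i).card ≤ (x ^ 2) ^ m := by
        refine (prod_le_prod' fun i _ => h2 i).trans ?_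
        rw [prod_const, card_univ, Fintype.card_fin]
      calc (∏ i, (V x i).card) * ((x + 1 - 1) * x) ≤ (x ^ 2) ^ m * (x * x) := by
            apply Nat.mul_le_mul h3
            rw [Nat.add_sub_cancel]
        _ = x ^ (2 * m + 2) := by rw [← pow_mul]; ring
  have hsys : ∀ x s, Pool.Agent.R418.GE.Sys (g x s) := by
    intro x s
    rw [hg]
    refine ⟨fun p n => ?_, fun p hp n => ?_⟩
    · simp only
      split_ifs <;> norm_num
    · simp only
      refine if_congr (hit_congr a s.1 s.2.1 s.2.2 p fun i => ?_) rfl rfl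
      have h1 := Polynomial.sub_dvd_eval_sub ((n + p : ℕ) : ℤ) (n : ℤ) (f i)
      have h2 : ((n + p : ℕ) : ℤ) - (n : ℤ) = p := by push_cast; ring
      rwa [h2] at h1
  have hcongr : ∀ (n : ℤ) (p : ℕ) (s : (Fin m → ℤ) × ℕ × ℕ), Hit a (fun i => (f i).eval ((res n p : ℕ) : ℤ)) s.1 s.2.1 s.2.2 p ↔
      Hit a (fun i => (f i).eval n) s.1 s.2.1 s.2.2 p := by
    intro n p s
    rcases Nat.eq_zero_or_pos p with rfl | hp
    · exact ⟨fun h => absurd h.1 Nat.not_prime_zero, fun h => absurd h.1 Nat.not_prime_zero⟩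
    have hp0 : (p : ℤ) ≠ 0 := by exact_mod_cast hp.ne'
    refine hit_congr a s.1 s.2.1 s.2.2 p fun i => ?_
    have h1 := Polynomial.sub_dvd_eval_sub ((res n p : ℕ) : ℤ) n (f i)
    have h2 : (p : ℤ) ∣ ((res n p : ℕ) : ℤ) - n := by
      unfold res
      rw [Int.toNat_of_nonneg (Int.emod_nonneg n hp0)]
      exact ⟨-(n / p), by rw [Int.emod_def]; ring⟩
    exact h2.trans h1
  have hcnt : ∀ x s j, cntz (g x s) x (D j) =
      (count a (fun i => (f i).eval (D j)) s.1 s.2.1 s.2.2 x : ℝ) := by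
    intro x s j
    have h0 : cntz (g x s) x (D j) = ∑ p ∈ Pool.Agent.R418.GE.pr x,
        (if Hit a (fun i => (f i).eval (D j)) s.1 s.2.1 s.2.2 p then (1 : ℝ) else 0) := by
      rw [cntz, hg]
      simp only
      exact sum_congr rfl fun p _ => if_congr (hcongr (D j) p s) rfl rfl
    rw [h0, count, Pool.Agent.R418.GE.pr]
    rw [← sum_filter, sum_const, nsmul_eq_mul, mul_one, filter_filter]
    congr 2
    refine filter_congr fun p _ => ?_
    exact ⟨fun h => h.2, fun h => ⟨h.1, h⟩⟩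
  have hdeg : ((∏ i, f i).natDegree : ℝ) ≤ m * d := by
    have h1 : (∏ i, f i).natDegree ≤ m * d := by
      refine (natDegree_prod_le _ _).trans ((sum_le_sum fun i _ => (hf i).2).trans ?_)
      simp
    exact_mod_cast h1
  have hbase : ∀ (r : Fin m → ℤ) (q c x : ℕ), (base a r q c x : ℝ) =
      ∑ p ∈ Pool.Agent.R418.GE.pr x, (if Pm a r q c p then (1 : ℝ) else 0) := by
    intro r q c x
    rw [base, Pool.Agent.R418.GE.pr, ← sum_filter, sum_const, nsmul_eq_mul, mul_one, filter_filter]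
    congr 2
    refine filter_congr fun p _ => ?_
    exact ⟨fun h => ⟨h.1, h⟩, fun h => h.2⟩
  have hram : ∀ x : ℕ, (ram (∏ i, f i) x : ℝ) = ∑ p ∈ Pool.Agent.R418.GE.pr x,
      (if p.Prime ∧ ((p : ℤ) ∣ (∏ i, f i).leadingCoeff ∨
        (p : ℤ) ∣ resultant (∏ i, f i) (derivative (∏ i, f i))) then (1 : ℝ) else 0) := by
    intro x
    rw [ram, Pool.Agent.R418.GE.pr, ← sum_filter, sum_const, nsmul_eq_mul, mul_one, filter_filter]
    congr 2
    refine filter_congr fun p _ => ?_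
    exact ⟨fun h => ⟨h.1, h⟩, fun h => h.2⟩
  have hmdl : ∀ (x : ℕ) (s : (Fin m → ℤ) × ℕ × ℕ), (∀ i, s.1 i ≠ 0) →
      |Pool.Agent.R418.GE.mdl (g x s) x - (base a s.1 s.2.1 s.2.2 x : ℝ) / 2 ^ m| ≤
        4 * (m * d) * √(base a s.1 s.2.1 s.2.2 x : ℝ) + ram (∏ i, f i) x := by
    intro x s hs
    have e1 : (base a s.1 s.2.1 s.2.2 x : ℝ) / 2 ^ m = ∑ p ∈ Pool.Agent.R418.GE.pr x,
        (if Pm a s.1 s.2.1 s.2.2 p then (1 : ℝ) / 2 ^ m else 0) := by
      rw [hbase, sum_div]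
      refine sum_congr rfl fun p _ => ?_
      rw [ite_div, zero_div]
    rw [Pool.Agent.R418.GE.mdl, e1, ← sum_sub_distrib]
    refine (abs_sum_le_sum_abs _ _).trans ?_
    refine (sum_le_sum fun p _ => ?_).trans (b := ∑ p ∈ Pool.Agent.R418.GE.pr x,
      ((if Pm a s.1 s.2.1 s.2.2 p then
          2 * ((∏ i, f i).natDegree : ℝ) * (1 / √p) else 0) +
      (if p.Prime ∧ ((p : ℤ) ∣ (∏ i, f i).leadingCoeff ∨
        (p : ℤ) ∣ resultant (∏ i, f i) (derivative (∏ i, f i))) then 1 else 0))) ?_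
    · rw [hg]
      exact mean_twist hm a f (fun i => (hf i).1) s.1 hs s.2.1 s.2.2 p
    · rw [sum_add_distrib, ← hram]
      refine add_le_add ?_ le_rfl
      rw [← sum_filter, ← mul_sum]
      have h1 := Pool.Agent.R418.PT.sum_inv_sqrt_le ((Pool.Agent.R418.GE.pr x).filter
        (fun p => Pm a s.1 s.2.1 s.2.2 p)) (by
          intro n hn
          rw [mem_filter] at hn
          exact hn.2.1.one_lt.le)
      have h2 : ((((Pool.Agent.R418.GE.pr x).filter
        (fun p => Pm a s.1 s.2.1 s.2.2 p)).card : ℕ) : ℝ) =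
          base a s.1 s.2.1 s.2.2 x := by
        rw [hbase, ← sum_filter, sum_const, nsmul_eq_mul, mul_one]
      rw [h2] at h1
      calc _ ≤ 2 * ((∏ i, f i).natDegree : ℝ) * (2 * √(base a s.1 s.2.1 s.2.2 x : ℝ)) :=
            mul_le_mul_of_nonneg_left h1 (by positivity)
        _ = 4 * ((∏ i, f i).natDegree : ℝ) * √(base a s.1 s.2.1 s.2.2 x : ℝ) := by ring
        _ ≤ 4 * (m * d) * √(base a s.1 s.2.1 s.2.2 x : ℝ) := by
            apply mul_le_mul_of_nonneg_right _ (Real.sqrt_nonneg _)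
            linarith
  have hmdl_le : ∀ (x : ℕ) (s : (Fin m → ℤ) × ℕ × ℕ), (∀ i, s.1 i ≠ 0) →
      Pool.Agent.R418.GE.mdl (g x s) x ≤ base a s.1 s.2.1 s.2.2 x := by
    intro x s hs
    rw [Pool.Agent.R418.GE.mdl, hbase]
    refine sum_le_sum fun p _ => ?_
    split_ifs with hS
    · exact (Pool.Agent.R418.GE.mean_mem (hsys x s) p).2
    · rw [Pool.Agent.R418.GE.mean]
      have h0 : ∀ n, g x s p n = 0 := by
        intro n
        rw [hg]
        simp only
        rw [if_neg]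
        intro h
        exact hS ((hit_iff a _ s.1 hs _ _ p).1 h).1
      rw [sum_congr rfl fun n _ => h0 n]
      simp
  have hfin : ({j : ℕ | 1 ≤ j ∧ j ≤ N ∧ ∃ x : ℕ, X ≤ x ∧ x ^ W ≤ N ∧
          ∃ (r : Fin m → ℤ) (q c : ℕ), (∀ i, r i ≠ 0) ∧ 1 ≤ q ∧ q ≤ x ∧ c < q ∧
            √(max 1 (base a r q c x : ℝ)) * (x : ℝ) ^ δ + ram (∏ i, f i) x <
              |(count a (fun i => (f i).eval (D j)) r q c x : ℝ) -
                (base a r q c x : ℝ) / 2 ^ m|} : Set ℕ).Finite :=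
    (Set.finite_Iic N).subset fun j hj => hj.2.1
  rw [Set.ncard_eq_toFinset_card _ hfin]
  refine hgen _ R g hRc hsys X N D hXa hEq _ fun j hj => ?_
  obtain ⟨hj0, hjN, x, hx1, hx2, r, q, c, hr, hq1, hq2, hc, hbad⟩ :=
    (Set.Finite.mem_toFinset hfin).1 hj
  have hx5 : ¬ x < 5 := by omega
  have hxr : (1 : ℝ) ≤ x := by
    have : 1 ≤ x := by omega
    exact_mod_cast this
  have hx0 : (0 : ℝ) < x := by linarith
  refine ⟨hj0, hjN, x, hx1, hx2, (r, q, c), ?_, ?_⟩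
  · rw [hR]
    simp only
    rw [if_neg hx5, mem_filter, mem_product, mem_product, Fintype.mem_piFinset, mem_Icc, mem_range]
    refine ⟨⟨?_, ⟨hq1, hq2⟩, lt_of_lt_of_le hc hq2⟩, hr⟩
    -- some prime is counted
    have hex : ∃ p : ℕ, p ≤ x ∧ Pm a r q c p := by
      by_contra hcon
      push Not at hcon
      have hb0 : base a r q c x = 0 := by
        rw [base, card_eq_zero, filter_eq_empty_iff]
        intro p hp h
        rw [mem_range] at hp
        exact hcon p (by omega) h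
      have hc0 : count a (fun i => (f i).eval (D j)) r q c x = 0 := by
        rw [count, card_eq_zero, filter_eq_empty_iff]
        intro p hp h
        rw [mem_range] at hp
        exact hcon p (by omega) ((hit_iff a _ r hr _ _ p).1 h).1
      rw [hb0, hc0] at hbad
      have : 0 ≤ √(max 1 ((0 : ℕ) : ℝ)) * (x : ℝ) ^ δ + ram (∏ i, f i) x := by positivity
      norm_num at hbad
      norm_num at this
      linarith
    obtain ⟨p, hpx, hp⟩ := hex
    intro i
    rw [hV]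
    simp only
    rw [mem_union, mem_image, mem_image]
    rcases hp.2.2.2 i with h | h
    · exact Or.inl ⟨p, mem_range.2 (by omega), h⟩
    · exact Or.inr ⟨p, mem_range.2 (by omega), by rw [h]; ring⟩
  · rw [hcnt]
    simp only
    have h1 := hmdl x (r, q, c) hr
    have h2 := hmdl_le x (r, q, c) hr
    simp only at h1 h2
    obtain ⟨M, hM⟩ : ∃ M : ℝ, M = Pool.Agent.R418.GE.mdl (g x (r, q, c)) x := ⟨_, rfl⟩
    obtain ⟨b, hb⟩ : ∃ b : ℝ, b = base a r q c x := ⟨_, rfl⟩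
    obtain ⟨k, hk⟩ : ∃ k : ℝ, k = count a (fun i => (f i).eval (D j)) r q c x := ⟨_, rfl⟩
    rw [← hM, ← hb] at h1 h2
    rw [← hb, ← hk] at hbad
    rw [← hM, ← hk]
    have hs1 : √(max 1 M) ≤ √(max 1 b) := Real.sqrt_le_sqrt (max_le_max le_rfl h2)
    have hs2 : √b ≤ √(max 1 b) := Real.sqrt_le_sqrt (le_max_right _ _)
    have hs0 : 0 ≤ √(max 1 b) := Real.sqrt_nonneg _
    have hxd : 1 + 4 * (m * d : ℝ) ≤ (x : ℝ) ^ (δ / 2) := hX₁ x (hXb.trans hx1)
    have hmd : (0 : ℝ) ≤ m * d := by positivity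
    have hxd1 : 1 ≤ (x : ℝ) ^ (δ / 2) := by linarith
    have hsplit : (x : ℝ) ^ δ = (x : ℝ) ^ (δ / 2) * (x : ℝ) ^ (δ / 2) := by
      rw [← Real.rpow_add hx0]
      congr 1
      ring
    have h3 : |k - b / 2 ^ m| ≤ |k - M| + |M - b / 2 ^ m| := abs_sub_le _ _ _
    have h4 : √(max 1 M) * (x : ℝ) ^ (δ / 2) + 4 * (m * d) * √b ≤
        √(max 1 b) * (x : ℝ) ^ δ := by
      calc √(max 1 M) * (x : ℝ) ^ (δ / 2) + 4 * (m * d) * √b ≤
          √(max 1 b) * (x : ℝ) ^ (δ / 2) + 4 * (m * d) * √(max 1 b) := by gcongr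
        _ = √(max 1 b) * ((x : ℝ) ^ (δ / 2) + 4 * (m * d)) := by ring
        _ ≤ √(max 1 b) * ((x : ℝ) ^ (δ / 2) * (x : ℝ) ^ (δ / 2)) := by
            apply mul_le_mul_of_nonneg_left _ hs0
            nlinarith
        _ = _ := by rw [← hsplit]
    linarith

end Pool.Agent.T2H67.LT
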