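import Pool.Agent.T2H67.LT.Law

/-!
# The bound of Lang and Trotter for a form and for few of its twists
-/

set_option autoImplicit false

namespace Pool.Agent.T2H67.LT

open Finset Polynomial Filter
open Pool.Agent.T2H58.DQ

/-- the number of the odd primes `p ≤ x` with `a_p = r` or `a_p = -r` -/
noncomputable def both (a : ℕ → ℤ) (r : ℤ) (x : ℕ) : ℕ :=
  ((range (x + 1)).filter (fun p => p.Prime ∧ p ≠ 2 ∧ (a p = r ∨ a p = - r))).card

/-- the number of the odd primes `p ≤ x` with `(D / p) a_p = r` -/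
noncomputable def one (a : ℕ → ℤ) (D r : ℤ) (x : ℕ) : ℕ :=
  ((range (x + 1)).filter (fun p => p.Prime ∧ p ≠ 2 ∧ jacobiSym D p * a p = r)).card

theorem base_one (a : ℕ → ℤ) (r : ℤ) (x : ℕ) : base (fun _ : Fin 1 => a) (fun _ => r) 1 0 x = both a r x := by
  classical
  unfold base both
  congr 1
  refine filter_congr fun p _ => ?_
  unfold Pm
  rw [Nat.mod_one]
  constructor
  · rintro ⟨h1, h2, _, h3⟩
    exact ⟨h1, h2, h3 0⟩
  · rintro ⟨h1, h2, h3⟩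
    exact ⟨h1, h2, rfl, fun _ => h3⟩

theorem count_one (a : ℕ → ℤ) (D r : ℤ) (x : ℕ) : count (fun _ : Fin 1 => a) (fun _ => D) (fun _ => r) 1 0 x = one a D r x := by
  classical
  unfold count one
  congr 1
  refine filter_congr fun p _ => ?_
  unfold Hit
  rw [Nat.mod_one]
  constructor
  · rintro ⟨h1, h2, _, h3⟩
    exact ⟨h1, h2, h3 0⟩
  · rintro ⟨h1, h2, h3⟩
    exact ⟨h1, h2, rfl, fun _ => h3⟩

theorem ram_le (F : ℤ[X]) (h1 : F.leadingCoeff ≠ 0) (h2 : resultant F F.derivative ≠ 0) (x : ℕ) :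
    ram F x ≤ F.leadingCoeff.natAbs + (resultant F F.derivative).natAbs := by
  classical
  unfold ram
  have h3 : ((range (x + 1)).filter (fun p : ℕ => p.Prime ∧
    ((p : ℤ) ∣ F.leadingCoeff ∨ (p : ℤ) ∣ resultant F F.derivative))) ⊆
    Icc 1 (F.leadingCoeff.natAbs) ∪ Icc 1 (resultant F F.derivative).natAbs := by
    intro p hp
    rw [mem_filter] at hp
    rw [mem_union, mem_Icc, mem_Icc]
    obtain ⟨_, hpp, h | h⟩ := hp
    · left
      exact ⟨hpp.one_lt.le, Nat.le_of_dvd (Int.natAbs_pos.2 h1) (Int.natCast_dvd.1 h)⟩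
    · right
      exact ⟨hpp.one_lt.le, Nat.le_of_dvd (Int.natAbs_pos.2 h2) (Int.natCast_dvd.1 h)⟩
  refine (card_le_card h3).trans ((card_union_le _ _).trans ?_)
  rw [Nat.card_Icc, Nat.card_Icc]
  omega

/-- the size of the bound of Lang and Trotter -/
noncomputable def lt (x : ℕ) : ℝ := √x / Real.log x

theorem numeric (B C ε : ℝ) (hC : 0 < C) (hε : 0 < ε) : ∀ᶠ x : ℕ in atTop,
    √(max 1 (C * lt x)) * (x : ℝ) ^ (1 / 16 : ℝ) + B ≤ ε * lt x ∧ max 1 (((x : ℝ) ^ (1 / 16 : ℝ)) ^ 2) ≤ C * lt x := by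
  have hlog : ∀ᶠ x : ℕ in atTop, Real.log x ≤ (x : ℝ) ^ (1 / 16 : ℝ) := by
    have h1 := (isLittleO_log_rpow_atTop (show (0 : ℝ) < 1 / 16 by norm_num)).def (show (0 : ℝ) < 1 by norm_num)
    have h2 := tendsto_natCast_atTop_atTop.eventually (h1.and (eventually_ge_atTop (1 : ℝ)))
    filter_upwards [h2] with x hx
    obtain ⟨h3, h4⟩ := hx
    rw [one_mul, Real.norm_of_nonneg (Real.log_nonneg h4), Real.norm_of_nonneg (Real.rpow_nonneg (by linarith) _)] at h3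
    exact h3
  have hbig : ∀ T : ℝ, ∀ᶠ x : ℕ in atTop, T ≤ (x : ℝ) ^ (1 / 16 : ℝ) := fun T =>
    ((tendsto_rpow_atTop (show (0 : ℝ) < 1 / 16 by norm_num)).comp tendsto_natCast_atTop_atTop).eventually
      (eventually_ge_atTop T)
  filter_upwards [hlog, hbig (1 + 1 / C), hbig ((√C + |B|) / ε + 1), hbig 1, eventually_ge_atTop 3] with x h1 h2 h3 h4 h5
  have hx3 : (3 : ℝ) ≤ x := by exact_mod_cast h5
  have hx0 : (0 : ℝ) < x := by linarith
  obtain ⟨u, hu⟩ : ∃ u : ℝ, u = (x : ℝ) ^ (1 / 16 : ℝ) := ⟨_, rfl⟩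
  rw [← hu] at h1 h2 h3 h4 ⊢
  have hu0 : 0 < u := by linarith
  have hsq : √(x : ℝ) = u ^ 8 := by
    rw [hu, ← Real.rpow_natCast, ← Real.rpow_mul hx0.le, Real.sqrt_eq_rpow]
    norm_num
  have hl0 : 0 < Real.log x := Real.log_pos (by linarith)
  have hlt1 : u ^ 7 ≤ lt x := by
    unfold lt
    rw [hsq, le_div_iff₀ hl0]
    calc u ^ 7 * Real.log x ≤ u ^ 7 * u := by gcongr
      _ = u ^ 8 := by ring
  have hl1 : 1 ≤ Real.log x := by
    rw [Real.le_log_iff_exp_le hx0]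
    exact Real.exp_one_lt_d9.le.trans (by linarith)
  have hlt2 : lt x ≤ u ^ 8 := by
    unfold lt
    rw [hsq]
    exact div_le_self (by positivity) hl1
  have hCu : 1 ≤ C * u := by
    have h6 : 1 / C ≤ u := by linarith
    rw [div_le_iff₀ hC] at h6
    linarith
  have hY1 : u ^ 6 ≤ C * lt x := by
    calc u ^ 6 = 1 * u ^ 6 := by ring
      _ ≤ (C * u) * u ^ 6 := by gcongr
      _ = C * u ^ 7 := by ring
      _ ≤ C * lt x := by gcongr
  have hu6 : 1 ≤ u ^ 6 := one_le_pow₀ h4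
  have hu26 : u ^ 2 ≤ u ^ 6 := pow_le_pow_right₀ h4 (by norm_num)
  refine ⟨?_, max_le (hu6.trans hY1) (hu26.trans hY1)⟩
  rw [max_eq_right (hu6.trans hY1)]
  have h7 : √(C * lt x) ≤ √C * u ^ 4 := by
    rw [Real.sqrt_mul hC.le]
    have h8 : √(lt x) ≤ u ^ 4 := by
      rw [Real.sqrt_le_left (by positivity)]
      calc lt x ≤ u ^ 8 := hlt2
        _ = (u ^ 4) ^ 2 := by ring
    gcongr
  have h9 : (√C + |B|) ≤ ε * u := by
    have h10 : (√C + |B|) / ε ≤ u := by linarith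
    rw [div_le_iff₀ hε] at h10
    linarith
  have hu5 : 1 ≤ u ^ 5 := one_le_pow₀ h4
  calc √(C * lt x) * u + B ≤ √C * u ^ 4 * u + |B| * u ^ 5 := by
        have h11 : B ≤ |B| * u ^ 5 := (le_abs_self B).trans (le_mul_of_one_le_right (abs_nonneg _) hu5)
        have h12 : √(C * lt x) * u ≤ √C * u ^ 4 * u := by gcongr
        linarith
    _ = (√C + |B|) * u ^ 5 := by ring
    _ ≤ (ε * u) * u ^ 5 := by gcongr
    _ = ε * u ^ 6 := by ring
    _ ≤ ε * u ^ 7 := by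
        have : u ^ 6 ≤ u ^ 7 := pow_le_pow_right₀ h4 (by norm_num)
        gcongr
    _ ≤ ε * lt x := by gcongr

theorem transfer (g : ℤ[X]) (hg : 1 ≤ g.natDegree) (hsep : resultant g g.derivative ≠ 0) (κ : ℕ) (θ C₁ C ε : ℝ)
    (hθ : 0 < θ) (hC₁ : 1 ≤ C₁) (hC : 0 < C) (hε : 0 < ε) : ∃ W X₀ : ℕ, 1 ≤ W ∧
    ∀ (a : ℕ → ℤ) (D : ℕ → ℤ) (X N : ℕ), X₀ ≤ X → Equi D N ((N : ℝ) ^ θ) (C₁ * (N : ℝ) ^ (1 - θ)) →
      (({j : ℕ | 1 ≤ j ∧ j ≤ N ∧ ∃ x : ℕ, X ≤ x ∧ x ^ W ≤ N ∧ ∃ r : ℤ, r ≠ 0 ∧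
        (((both a r x : ℝ) ≤ C * lt x ∧ (C / 2 + ε) * lt x < one a (g.eval (D j)) r x) ∨
         (C * lt x < both a r x ∧ (one a (g.eval (D j)) r x : ℝ) ≤ (C / 2 - ε) * lt x))}).ncard : ℝ) * (X : ℝ) ^ κ ≤ N := by
  classical
  obtain ⟨W, X₀, hW, hlaw⟩ := law 1 g.natDegree κ le_rfl (1 / 16) (by norm_num) θ C₁ hθ hC₁
  obtain ⟨X₁, hX₁⟩ := eventually_atTop.1 (numeric (g.leadingCoeff.natAbs + (resultant g g.derivative).natAbs : ℕ) C (ε / 2) hC (by linarith))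
  refine ⟨W, max X₀ (max X₁ 3), hW, fun a D X N hX hEq => ?_⟩
  have hXa : X₀ ≤ X := (le_max_left _ _).trans hX
  have hXb : X₁ ≤ X := (le_max_left _ _).trans ((le_max_right _ _).trans hX)
  have hXc : 3 ≤ X := (le_max_right _ _).trans ((le_max_right _ _).trans hX)
  have h1 := hlaw (fun _ => a) (fun _ => g) (fun _ => ⟨hg, le_rfl⟩) X N D hXa hEq
  refine le_trans ?_ h1
  apply mul_le_mul_of_nonneg_right _ (by positivity)
  refine Nat.cast_le.2 (Set.ncard_le_ncard ?_ ?_)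
  swap
  · exact (Set.finite_Iic N).subset fun j hj => hj.2.1
  rintro j ⟨hj1, hj2, x, hx1, hx2, r, hr, hcase⟩
  refine ⟨hj1, hj2, x, hx1, hx2, fun _ => r, 1, 0, fun _ => hr, le_rfl, by omega, by omega, ?_⟩
  have e1 : (∏ _i : Fin 1, g) = g := by simp
  rw [e1, base_one, count_one, pow_one]
  obtain ⟨hn1, hn2⟩ := hX₁ x (hXb.trans hx1)
  have hram : (ram g x : ℝ) ≤ ((g.leadingCoeff.natAbs + (resultant g g.derivative).natAbs : ℕ) : ℝ) := by
    have h0 : g.leadingCoeff ≠ 0 := by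
      rw [Ne, leadingCoeff_eq_zero]
      rintro rfl
      simp at hg
    exact_mod_cast ram_le g h0 hsep x
  obtain ⟨b, hb⟩ : ∃ b : ℝ, b = both a r x := ⟨_, rfl⟩
  obtain ⟨k, hk⟩ : ∃ k : ℝ, k = one a (g.eval (D j)) r x := ⟨_, rfl⟩
  obtain ⟨u, hu⟩ : ∃ u : ℝ, u = (x : ℝ) ^ (1 / 16 : ℝ) := ⟨_, rfl⟩
  obtain ⟨Y, hY⟩ : ∃ Y : ℝ, Y = C * lt x := ⟨_, rfl⟩
  obtain ⟨L, hL⟩ : ∃ L : ℝ, L = lt x := ⟨_, rfl⟩
  rw [← hb, ← hk, ← hL] at hcase
  rw [← hb, ← hk, ← hu]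
  rw [← hu, ← hY, ← hL] at hn1
  rw [← hu, ← hY] at hn2
  rw [← hL] at hY
  have hx3 : (3 : ℝ) ≤ x := by exact_mod_cast hXc.trans hx1
  have hu0 : 0 ≤ u := by rw [hu]; positivity
  have hY1 : 1 ≤ Y := (le_max_left _ _).trans hn2
  have hYu : u ^ 2 ≤ Y := (le_max_right _ _).trans hn2
  have hL0 : 0 < L := by
    by_contra hcon
    push Not at hcon
    nlinarith
  have hb0 : 0 ≤ b := by rw [hb]; positivity
  rcases hcase with ⟨hc1, hc2⟩ | ⟨hc1, hc2⟩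
  · rw [← hY] at hc1
    have h2 : √(max 1 b) ≤ √(max 1 Y) := Real.sqrt_le_sqrt (max_le_max le_rfl hc1)
    have h3 : √(max 1 b) * u ≤ √(max 1 Y) * u := by gcongr
    have h4 : k - b / 2 ≤ |k - b / 2| := le_abs_self _
    have h5 : Y / 2 + ε * L < k := by
      rw [hY]
      linarith
    have h6 : 0 < ε * L := by positivity
    linarith
  · rw [← hY] at hc1
    have hbY : Y ≤ b := hc1.le
    have hb1 : 1 ≤ b := hY1.trans hbY
    rw [max_eq_right hb1]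
    rw [max_eq_right hY1] at hn1
    have hsb : 0 ≤ √b := Real.sqrt_nonneg _
    have hsY : 0 ≤ √Y := Real.sqrt_nonneg _
    have e2 : √b * √b = b := Real.mul_self_sqrt hb0
    have e3 : √Y * √Y = Y := Real.mul_self_sqrt (by linarith)
    have h7 : √Y ≤ √b := Real.sqrt_le_sqrt hbY
    have h8 : u ≤ √Y := by
      rw [← Real.sqrt_sq hu0]
      exact Real.sqrt_le_sqrt hYu
    have h9 : Y / 2 - √Y * u ≤ b / 2 - √b * u := by nlinarith
    have h4 : b / 2 - k ≤ |k - b / 2| := by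
      rw [abs_sub_comm]
      exact le_abs_self _
    have h5 : k ≤ Y / 2 - ε * L := by
      rw [hY]
      linarith
    have h6 : 0 < ε * L := by positivity
    linarith

end Pool.Agent.T2H67.LT
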